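import Mathlib

set_option autoImplicit false

namespace Pool.Agent.Results.MP_b3b2bb_nt.EigenvectorApproximants

/-- The numerators `P_n = P_n(a,x)` for `n ≥ 0`: `P_0 = 1` and `P_n = P_{n-1} + a xⁿ P_{n-2}` for
`n ≥ 1`, where `P_{-1} = 1`. -/
noncomputable def P (a x : ℂ) : ℕ → ℂ
  | 0 => 1
  | 1 => 1 + a * x ^ 1 * 1
  | (n + 2) => P a x (n + 1) + a * x ^ (n + 2) * P a x n

/-- The denominators `Q_n = Q_n(a,x)` for `n ≥ 0`: `Q_0 = 1 + a` and `Q_n = Q_{n-1} + a xⁿ Q_{n-2}`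
for `n ≥ 1`, where `Q_{-1} = 1`. -/
noncomputable def Q (a x : ℂ) : ℕ → ℂ
  | 0 => 1 + a
  | 1 => (1 + a) + a * x ^ 1 * 1
  | (n + 2) => Q a x (n + 1) + a * x ^ (n + 2) * Q a x n

/-- The matrix `A` of the problem. -/
noncomputable def A (a x : ℂ) (m : ℕ) : Matrix (Fin 2) (Fin 2) ℂ :=
  !![a * x ^ (m - 1) * P a x (m - 3), P a x (m - 2);
     a * x ^ (m - 1) * Q a x (m - 3), Q a x (m - 2)]

/-! ### Gaussian binomial coefficients with integer lower index -/

noncomputable def B (q : ℂ) : ℕ → ℤ → ℂ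
  | 0, t => if t = 0 then 1 else 0
  | (n + 1), t => B q n (t - 1) + q ^ t * B q n t

theorem B_zero (q : ℂ) (t : ℤ) : B q 0 t = if t = 0 then 1 else 0 := by
  rw [B]

theorem pascal1 (q : ℂ) (n : ℕ) (t : ℤ) : B q (n + 1) t = B q n (t - 1) + q ^ t * B q n t := by
  rw [B]

theorem pascal2 {q : ℂ} (hq : q ≠ 0) (n : ℕ) (t : ℤ) :
    B q (n + 1) t = B q n t + q ^ ((n : ℤ) + 1 - t) * B q n (t - 1) := by
  induction n generalizing t with
  | zero =>
    rw [pascal1, B_zero, B_zero]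
    by_cases h0 : t = 0
    · subst h0; simp
    · by_cases h1 : t = 1
      · subst h1; simp
      · have h2 : t - 1 ≠ 0 := by omega
        simp [h0, h2]
  | succ n ih =>
    have l1 := pascal1 q (n + 1) t
    have l2 := ih (t - 1)
    have l3 := ih t
    have l4 := pascal1 q n t
    have l5 := pascal1 q n (t - 1)
    have e1 : q ^ t * q ^ ((n : ℤ) + 1 - t) = q ^ ((n : ℤ) + 1) := by
      rw [← zpow_add₀ hq]; congr 1; ring
    have e3 : q ^ (((n + 1 : ℕ) : ℤ) + 1 - t) = q ^ ((n : ℤ) + 1 - (t - 1)) := by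
      congr 1; push_cast; ring
    have e4 : q ^ ((n : ℤ) + 1 - (t - 1)) * q ^ (t - 1) = q ^ ((n : ℤ) + 1) := by
      rw [← zpow_add₀ hq]; congr 1; ring
    rw [e3]
    linear_combination l1 + l2 + q ^ t * l3 - l4 - q ^ ((n : ℤ) + 1 - (t - 1)) * l5 +
      (B q n (t - 1)) * e1 - (B q n (t - 1)) * e4

theorem B_neg (q : ℂ) (n : ℕ) (t : ℤ) (h : t < 0) : B q n t = 0 := by
  induction n generalizing t with
  | zero => rw [B_zero, if_neg (by omega)]
  | succ n ih => rw [pascal1, ih (t - 1) (by omega), ih t h]; ring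

theorem B_gt (q : ℂ) (n : ℕ) (t : ℤ) (h : (n : ℤ) < t) : B q n t = 0 := by
  induction n generalizing t with
  | zero => rw [B_zero, if_neg (by push_cast at h; omega)]
  | succ n ih => rw [pascal1, ih (t - 1) (by push_cast at h; omega), ih t (by push_cast at h; omega)]; ring

theorem B_self_zero (q : ℂ) (n : ℕ) : B q n 0 = 1 := by
  induction n with
  | zero => rw [B_zero, if_pos rfl]
  | succ n ih => rw [pascal1, B_neg q n (0 - 1) (by omega), ih]; simp

theorem B_self (q : ℂ) (n : ℕ) : B q n (n : ℤ) = 1 := by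
  induction n with
  | zero => rw [B_zero, if_pos (by simp)]
  | succ n ih =>
    rw [pascal1, B_gt q n ((n + 1 : ℕ) : ℤ) (by push_cast; omega)]
    have : ((n + 1 : ℕ) : ℤ) - 1 = n := by push_cast; ring
    rw [this, ih]; ring

theorem absorb {q : ℂ} (hq : q ≠ 0) (n : ℕ) (t : ℤ) :
    (1 - q ^ t) * B q (n + 1) t = (1 - q ^ (n + 1)) * B q n (t - 1) := by
  have h1 := pascal1 q n t
  have h2 := pascal2 hq n t
  have e1 : q ^ t * q ^ ((n : ℤ) + 1 - t) = q ^ (n + 1) := by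
    rw [← zpow_add₀ hq, ← zpow_natCast]; congr 1; push_cast; ring
  linear_combination h1 - q ^ t * h2 - B q n (t - 1) * e1

/-! ### Schur's finite form of the Rogers-Ramanujan identity -/

noncomputable def tE (q : ℂ) (N : ℕ) (i : ℤ) : ℂ :=
  q ^ (10 * i ^ 2 + i) * B q (2 * N) ((N : ℤ) - 5 * i) -
    q ^ (10 * i ^ 2 + 11 * i + 3) * B q (2 * N) ((N : ℤ) - 5 * i - 3)

noncomputable def tO (q : ℂ) (N : ℕ) (i : ℤ) : ℂ :=
  q ^ (10 * i ^ 2 + i) * B q (2 * N + 1) ((N : ℤ) - 5 * i) -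
    q ^ (10 * i ^ 2 + 11 * i + 3) * B q (2 * N + 1) ((N : ℤ) - 5 * i - 2)

noncomputable def tF (q : ℂ) (N : ℕ) (i : ℤ) : ℂ :=
  q ^ ((N : ℤ) + 1 + 10 * i ^ 2 - 4 * i) * B q (2 * N) ((N : ℤ) + 1 - 5 * i)

theorem step_odd {q : ℂ} (hq : q ≠ 0) (N : ℕ) (i : ℤ) :
    tO q (N + 1) i = tE q (N + 1) i + q ^ (2 * N + 2) * tO q N i := by
  unfold tO tE
  have h2 : 2 * (N + 1) = 2 * N + 1 + 1 := by ring
  rw [h2]
  set n := 2 * N + 1 with hn
  push_cast
  -- B(n+2, N+1-5i), etc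
  have a1 := pascal2 hq (n + 1) ((N : ℤ) + 1 - 5 * i)
  have a2 := pascal1 q (n + 1) ((N : ℤ) + 1 - 5 * i - 2)
  have a3 := pascal1 q n ((N : ℤ) + 1 - 5 * i - 1)
  have a4 := pascal2 hq n ((N : ℤ) + 1 - 5 * i - 2)
  have c1 : (N : ℤ) + 1 - 5 * i - 2 - 1 = (N : ℤ) + 1 - 5 * i - 3 := by ring
  have c2 : (N : ℤ) + 1 - 5 * i - 1 - 1 = (N : ℤ) - 5 * i - 1 := by ring
  have c3 : (N : ℤ) + 1 - 5 * i - 1 = (N : ℤ) - 5 * i := by ring
  have c4 : (N : ℤ) + 1 - 5 * i - 2 = (N : ℤ) - 5 * i - 1 := by ring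
  have c5 : (N : ℤ) + 1 - 5 * i - 3 = (N : ℤ) - 5 * i - 2 := by ring
  rw [c1] at a2 a4
  rw [c3] at a1
  rw [c2, c3] at a3
  rw [c4] at a2 a4
  rw [c5] at a2 a4
  rw [c4, c5]
  rw [a1, a2, a3, a4]
  -- exponents
  have e1 : q ^ (10 * i ^ 2 + i) * q ^ (((n + 1 : ℕ) : ℤ) + 1 - ((N : ℤ) + 1 - 5 * i)) =
      q ^ ((N : ℤ) + 2 + 10 * i ^ 2 + 6 * i) := by
    rw [← zpow_add₀ hq]; congr 1; rw [hn]; push_cast; ring
  have e2 : q ^ (10 * i ^ 2 + 11 * i + 3) * q ^ ((N : ℤ) - 5 * i - 1) =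
      q ^ ((N : ℤ) + 2 + 10 * i ^ 2 + 6 * i) := by
    rw [← zpow_add₀ hq]; congr 1; ring
  have e3 : q ^ ((N : ℤ) + 2 + 10 * i ^ 2 + 6 * i) * q ^ ((N : ℤ) - 5 * i) =
      q ^ (2 * N + 2) * q ^ (10 * i ^ 2 + i) := by
    rw [← zpow_add₀ hq, ← zpow_natCast, ← zpow_add₀ hq]; congr 1; push_cast; ring
  have e4 : q ^ ((N : ℤ) + 2 + 10 * i ^ 2 + 6 * i) *
      q ^ ((n : ℤ) + 1 - ((N : ℤ) - 5 * i - 1)) =
      q ^ (2 * N + 2) * q ^ (10 * i ^ 2 + 11 * i + 3) := by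
    rw [← zpow_add₀ hq, ← zpow_natCast, ← zpow_add₀ hq]; congr 1; rw [hn]; push_cast; ring
  set X := q ^ ((N : ℤ) + 2 + 10 * i ^ 2 + 6 * i) with hX
  set B1 := B q n ((N : ℤ) - 5 * i)
  set B2 := B q n ((N : ℤ) - 5 * i - 1)
  set B3 := B q n ((N : ℤ) - 5 * i - 2)
  linear_combination (B2 + q ^ ((N : ℤ) - 5 * i) * B1) * e1 -
    (B2 + q ^ ((n : ℤ) + 1 - ((N : ℤ) - 5 * i - 1)) * B3) * e2 + B1 * e3 - B3 * e4

theorem step_even {q : ℂ} (hq : q ≠ 0) (N : ℕ) (i : ℤ) :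
    tE q (N + 1) i = tO q N i + q ^ (2 * N + 1) * tE q N i + (tF q N i - tF q N (i + 1)) := by
  unfold tO tE tF
  have h2 : 2 * (N + 1) = 2 * N + 1 + 1 := by ring
  rw [h2]
  set n := 2 * N with hn
  push_cast
  have a1 := pascal1 q (n + 1) ((N : ℤ) + 1 - 5 * i)
  have a2 := pascal2 hq (n + 1) ((N : ℤ) + 1 - 5 * i - 3)
  have a3 := pascal2 hq n ((N : ℤ) + 1 - 5 * i)
  have a4 := pascal1 q n ((N : ℤ) - 5 * i - 3)
  have c1 : (N : ℤ) + 1 - 5 * i - 3 = (N : ℤ) - 5 * i - 2 := by ring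
  have c2 : (N : ℤ) - 5 * i - 2 - 1 = (N : ℤ) - 5 * i - 3 := by ring
  have c3 : (N : ℤ) + 1 - 5 * i - 1 = (N : ℤ) - 5 * i := by ring
  have c4 : (N : ℤ) - 5 * i - 3 - 1 = (N : ℤ) - 5 * i - 4 := by ring
  have c5 : (N : ℤ) + 1 - 5 * (i + 1) = (N : ℤ) - 5 * i - 4 := by ring
  rw [c1] at a2 ⊢
  rw [c2] at a2
  rw [c3] at a1 a3
  rw [c4] at a4
  rw [c5]
  rw [a1, a2, a3, a4]
  have e1 : q ^ (10 * i ^ 2 + i) * q ^ ((N : ℤ) + 1 - 5 * i) =
      q ^ ((N : ℤ) + 1 + 10 * i ^ 2 - 4 * i) := by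
    rw [← zpow_add₀ hq]; congr 1; ring
  have e2 : q ^ (10 * i ^ 2 + 11 * i + 3) *
      q ^ (((n + 1 : ℕ) : ℤ) + 1 - ((N : ℤ) - 5 * i - 2)) =
      q ^ ((N : ℤ) + 1 + 10 * (i + 1) ^ 2 - 4 * (i + 1)) := by
    rw [← zpow_add₀ hq]; congr 1; rw [hn]; push_cast; ring
  have e3 : q ^ ((N : ℤ) + 1 + 10 * i ^ 2 - 4 * i) * q ^ ((n : ℤ) + 1 - ((N : ℤ) + 1 - 5 * i)) =
      q ^ (n + 1) * q ^ (10 * i ^ 2 + i) := by
    rw [← zpow_add₀ hq, ← zpow_natCast, ← zpow_add₀ hq]; congr 1; rw [hn]; push_cast; ring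
  have e4 : q ^ ((N : ℤ) + 1 + 10 * (i + 1) ^ 2 - 4 * (i + 1)) * q ^ ((N : ℤ) - 5 * i - 3) =
      q ^ (n + 1) * q ^ (10 * i ^ 2 + 11 * i + 3) := by
    rw [← zpow_add₀ hq, ← zpow_natCast, ← zpow_add₀ hq]; congr 1; rw [hn]; push_cast; ring
  set B1 := B q n ((N : ℤ) - 5 * i)
  set B2 := B q n ((N : ℤ) + 1 - 5 * i)
  set B3 := B q n ((N : ℤ) - 5 * i - 3)
  set B4 := B q n ((N : ℤ) - 5 * i - 4)
  linear_combination (B2 + q ^ ((n : ℤ) + 1 - ((N : ℤ) + 1 - 5 * i)) * B1) * e1 -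
    (B4 + q ^ ((N : ℤ) - 5 * i - 3) * B3) * e2 + B1 * e3 - B3 * e4

theorem B_supp {q : ℂ} {n : ℕ} {c i : ℤ}
    (h : i ∉ Finset.Icc (-(|c| + n)) (|c| + n)) : B q n (c - 5 * i) = 0 := by
  rw [Finset.mem_Icc] at h
  have h1 := le_abs_self c
  have h2 := neg_abs_le c
  have h3 := abs_nonneg c
  generalize |c| = d at *
  by_cases h4 : -(d + n) ≤ i
  · apply B_neg
    have h5 : ¬ (i ≤ d + n) := fun h6 => h ⟨h4, h6⟩
    omega
  · apply B_gt
    omega

theorem summ (q : ℂ) (g : ℤ → ℂ) (n : ℕ) (c : ℤ) (t : ℤ → ℤ) (ht : ∀ i, t i = c - 5 * i) :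
    Summable fun i : ℤ => g i * B q n (t i) := by
  apply summable_of_ne_finset_zero (s := Finset.Icc (-(|c| + n)) (|c| + n))
  intro i hi
  rw [ht, B_supp hi, mul_zero]

theorem summ_tE (q : ℂ) (N : ℕ) : Summable (tE q N) :=
  (summ q _ _ (N : ℤ) _ (fun i => rfl)).sub (summ q _ _ ((N : ℤ) - 3) _ (fun i => by ring))

theorem summ_tO (q : ℂ) (N : ℕ) : Summable (tO q N) :=
  (summ q _ _ (N : ℤ) _ (fun i => rfl)).sub (summ q _ _ ((N : ℤ) - 2) _ (fun i => by ring))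

theorem summ_tF (q : ℂ) (N : ℕ) : Summable (tF q N) :=
  (summ q _ _ ((N : ℤ) + 1) _ (fun i => by ring))

noncomputable def DE (q : ℂ) (N : ℕ) : ℂ := ∑' i : ℤ, tE q N i
noncomputable def DO (q : ℂ) (N : ℕ) : ℂ := ∑' i : ℤ, tO q N i

theorem DO_step {q : ℂ} (hq : q ≠ 0) (N : ℕ) :
    DO q (N + 1) = DE q (N + 1) + q ^ (2 * N + 2) * DO q N := by
  unfold DO DE
  rw [tsum_congr (step_odd hq N), (summ_tE q (N + 1)).tsum_add ((summ_tO q N).mul_left _),
    tsum_mul_left]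

theorem shift_summ {f : ℤ → ℂ} (hf : Summable f) : Summable fun i : ℤ => f (i + 1) :=
  (Equiv.addRight (1 : ℤ)).summable_iff.mpr hf

theorem telescope {f : ℤ → ℂ} (hf : Summable f) : ∑' i : ℤ, (f i - f (i + 1)) = 0 := by
  have h1 : Summable fun i : ℤ => f (i + 1) := (Equiv.addRight (1 : ℤ)).summable_iff.mpr hf
  have h2 : ∑' i : ℤ, f (i + 1) = ∑' i : ℤ, f i := (Equiv.addRight (1 : ℤ)).tsum_eq f
  rw [hf.tsum_sub h1, h2, sub_self]

theorem DE_step {q : ℂ} (hq : q ≠ 0) (N : ℕ) :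
    DE q (N + 1) = DO q N + q ^ (2 * N + 1) * DE q N := by
  have h1 : Summable fun i : ℤ => tF q N (i + 1) := shift_summ (summ_tF q N)
  have hA : HasSum (fun i : ℤ => tO q N i) (DO q N) := (summ_tO q N).hasSum
  have hB : HasSum (fun i : ℤ => q ^ (2 * N + 1) * tE q N i) (q ^ (2 * N + 1) * DE q N) :=
    (summ_tE q N).hasSum.mul_left _
  have hC : HasSum (fun i : ℤ => tF q N i - tF q N (i + 1)) 0 := by
    have h2 := ((summ_tF q N).sub h1).hasSum
    rw [telescope (summ_tF q N)] at h2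
    exact h2
  have hD := (hA.add hB).add hC
  have hE : (fun i : ℤ => tO q N i + q ^ (2 * N + 1) * tE q N i + (tF q N i - tF q N (i + 1))) =
      fun i : ℤ => tE q (N + 1) i := funext fun i => (step_even hq N i).symm
  rw [hE] at hD
  have := hD.tsum_eq
  rw [add_zero] at this
  exact this

/-- The two basic solutions of the shifted recurrence (index `n` here is index `n - 2` there). -/
noncomputable def p (x : ℂ) : ℕ → ℂ
  | 0 => 0
  | 1 => 1
  | (n + 2) => p x (n + 1) + x ^ n * p x n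

noncomputable def s (x : ℂ) : ℕ → ℂ
  | 0 => 1
  | 1 => 0
  | (n + 2) => s x (n + 1) + x ^ n * s x n

theorem p_rec (x : ℂ) (n : ℕ) : p x (n + 2) = p x (n + 1) + x ^ n * p x n := by rw [p]
theorem s_rec (x : ℂ) (n : ℕ) : s x (n + 2) = s x (n + 1) + x ^ n * s x n := by rw [s]

theorem DE_zero (q : ℂ) : DE q 0 = 1 := by
  unfold DE
  rw [tsum_eq_single 0]
  · unfold tE
    simp [B_zero]
  · intro i hi
    unfold tE
    rw [Nat.mul_zero, B_zero, B_zero, if_neg (by push_cast; omega), if_neg (by push_cast; omega)]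
    ring

theorem DO_zero (q : ℂ) : DO q 0 = 1 := by
  unfold DO
  rw [tsum_eq_single 0]
  · unfold tO
    rw [B_neg q _ (((0 : ℕ) : ℤ) - 5 * 0 - 2) (by norm_num)]
    have : (((0 : ℕ) : ℤ) - 5 * 0) = 0 := by norm_num
    rw [this, B_self_zero]
    simp
  · intro i hi
    unfold tO
    have h1 : B q (2 * 0 + 1) (((0 : ℕ) : ℤ) - 5 * i) = 0 := by
      rcases lt_or_gt_of_ne hi with h | h
      · apply B_gt; push_cast; omega
      · apply B_neg; push_cast; omega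
    have h2 : B q (2 * 0 + 1) (((0 : ℕ) : ℤ) - 5 * i - 2) = 0 := by
      rcases lt_or_gt_of_ne hi with h | h
      · apply B_gt; push_cast; omega
      · apply B_neg; push_cast; omega
    rw [h1, h2]; ring

/-- Schur's identity. -/
theorem schur {q : ℂ} (hq : q ≠ 0) (N : ℕ) :
    DE q N = p q (2 * N + 1) ∧ DO q N = p q (2 * N + 2) := by
  induction N with
  | zero =>
    refine ⟨?_, ?_⟩
    · rw [DE_zero]; simp [p]
    · rw [DO_zero]; simp [p]
  | succ N ih =>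
    obtain ⟨h1, h2⟩ := ih
    have h3 : DE q (N + 1) = p q (2 * (N + 1) + 1) := by
      have : 2 * (N + 1) + 1 = 2 * N + 1 + 2 := by ring
      rw [DE_step hq, h1, h2, this, p_rec q (2 * N + 1)]
    refine ⟨h3, ?_⟩
    have : 2 * (N + 1) + 2 = 2 * N + 2 + 2 := by ring
    rw [DO_step hq, h3, h2, this, p_rec q (2 * N + 2)]
    have : 2 * (N + 1) + 1 = 2 * N + 2 + 1 := by ring
    rw [this]

/-! ### Evaluation at a primitive root of unity of order divisible by `5` -/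

theorem B_root {x : ℂ} {m : ℕ} (hm : 0 < m) (hx : IsPrimitiveRoot x m) {t : ℤ}
    (ht : ¬ (m : ℤ) ∣ t) : B x m t = 0 := by
  obtain ⟨n, rfl⟩ : ∃ n, m = n + 1 := ⟨m - 1, by omega⟩
  have h0 : x ≠ 0 := hx.ne_zero (by omega)
  have h1 := absorb h0 n t
  rw [hx.pow_eq_one, sub_self, zero_mul] at h1
  rcases mul_eq_zero.mp h1 with h2 | h2
  · exfalso
    apply ht
    rw [← hx.zpow_eq_one_iff_dvd]
    exact (sub_eq_zero.mp h2).symm
  · exact h2

theorem B_root' {x : ℂ} {n : ℕ} (hx : IsPrimitiveRoot x (n + 1)) {t : ℤ}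
    (h1 : ¬ ((n + 1 : ℕ) : ℤ) ∣ t + 1) (h2 : ¬ ((n + 1 : ℕ) : ℤ) ∣ t + 2) :
    B x n t = x ^ (2 * t + 3) * B x n (t + 2) := by
  have h0 : x ≠ 0 := hx.ne_zero (by omega)
  have e1 := pascal1 x n (t + 1)
  have e2 := pascal1 x n (t + 2)
  rw [B_root (by omega) hx h1] at e1
  rw [B_root (by omega) hx h2] at e2
  have c1 : t + 1 - 1 = t := by ring
  have c2 : t + 2 - 1 = t + 1 := by ring
  rw [c1] at e1
  rw [c2] at e2
  have e3 : x ^ (t + 1) * x ^ (t + 2) = x ^ (2 * t + 3) := by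
    rw [← zpow_add₀ h0]; congr 1; ring
  linear_combination (-1 : ℂ) * e1 + x ^ (t + 1) * e2 + e3 * B x n (t + 2)

theorem p_root {x : ℂ} {m : ℕ} (hm : 0 < m) (h5 : 5 ∣ m) (hx : IsPrimitiveRoot x m) :
    p x m = 0 := by
  have h0 : x ≠ 0 := hx.ne_zero (by omega)
  have key : ∀ (n : ℕ), m = n + 1 → ∀ t : ℤ, t % 5 = 2 →
      B x n t = x ^ (2 * t + 3) * B x n (t + 2) := by
    rintro n rfl t ht
    have h5' : (5 : ℤ) ∣ ((n + 1 : ℕ) : ℤ) := by exact_mod_cast h5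
    refine B_root' hx ?_ ?_
    · intro h
      have := h5'.trans h
      omega
    · intro h
      have := h5'.trans h
      omega
  have hxm : x ^ (m : ℤ) = 1 := by rw [zpow_natCast]; exact hx.pow_eq_one
  rcases Nat.even_or_odd m with he | ho
  · obtain ⟨N, hN⟩ : ∃ N, m = 2 * N + 2 := by
      obtain ⟨r, hr⟩ := he; exact ⟨r - 1, by omega⟩
    rw [hN, ← (schur h0 N).2]
    unfold DO
    have hz : ∀ i : ℤ, tO x N i = 0 := by
      intro i
      unfold tO
      have hk := key (2 * N + 1) hN ((N : ℤ) - 5 * i - 2) (by omega)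
      have c1 : (N : ℤ) - 5 * i - 2 + 2 = (N : ℤ) - 5 * i := by ring
      rw [c1] at hk
      rw [hk]
      have e1 : x ^ (10 * i ^ 2 + 11 * i + 3) * x ^ (2 * ((N : ℤ) - 5 * i - 2) + 3) =
          x ^ (10 * i ^ 2 + i) * x ^ (m : ℤ) := by
        rw [← zpow_add₀ h0, ← zpow_add₀ h0]; congr 1; rw [hN]; push_cast; ring
      rw [hxm] at e1
      linear_combination - e1 * B x (2 * N + 1) ((N : ℤ) - 5 * i)
    rw [tsum_congr hz, tsum_zero]
  · obtain ⟨N, hN⟩ := ho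
    rw [hN, ← (schur h0 N).1]
    unfold DE
    set h : ℤ → ℂ := fun i => x ^ (10 * i ^ 2 + i) * B x (2 * N) ((N : ℤ) - 5 * i) with hh
    have hs : Summable h := summ x _ _ (N : ℤ) _ (fun i => rfl)
    have hz : ∀ i : ℤ, tE x N i = h i - h (i + 1) := by
      intro i
      simp only [hh]
      unfold tE
      have c0 : (N : ℤ) - 5 * (i + 1) = (N : ℤ) - 5 * i - 5 := by ring
      rw [c0]
      have hk := key (2 * N) hN ((N : ℤ) - 5 * i - 5) (by omega)
      have c1 : (N : ℤ) - 5 * i - 5 + 2 = (N : ℤ) - 5 * i - 3 := by ring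
      rw [c1] at hk
      rw [hk]
      have e1 : x ^ (10 * (i + 1) ^ 2 + (i + 1)) * x ^ (2 * ((N : ℤ) - 5 * i - 5) + 3) =
          x ^ (10 * i ^ 2 + 11 * i + 3) * x ^ (m : ℤ) := by
        rw [← zpow_add₀ h0, ← zpow_add₀ h0]; congr 1; rw [hN]; push_cast; ring
      rw [hxm] at e1
      linear_combination e1 * B x (2 * N) ((N : ℤ) - 5 * i - 3)
    rw [tsum_congr hz, telescope hs]

theorem B_m {x : ℂ} {m : ℕ} (hm : 0 < m) (hx : IsPrimitiveRoot x m) {t : ℤ}
    (h0 : t ≠ 0) (h1 : t ≠ m) : B x m t = 0 := by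
  by_cases h2 : t < 0
  · exact B_neg x m t h2
  by_cases h3 : (m : ℤ) < t
  · exact B_gt x m t h3
  apply B_root hm hx
  intro h
  have := Int.le_of_dvd (by omega) h
  omega

theorem golden {x : ℂ} {m : ℕ} (hm : 0 < m) (h5 : 5 ∣ m) (hx : IsPrimitiveRoot x m) :
    p x (m + 1) ^ 2 = p x (m + 1) + 1 := by
  have h0 : x ≠ 0 := hx.ne_zero (by omega)
  have hxm : x ^ (m : ℤ) = 1 := by rw [zpow_natCast]; exact hx.pow_eq_one
  rcases Nat.even_or_odd m with he | ho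
  · obtain ⟨r, hr⟩ := he
    obtain ⟨μ, hμ⟩ : ∃ μ, r = 5 * μ := ⟨r / 5, by omega⟩
    obtain ⟨N, hN⟩ : ∃ N, r = N + 1 := ⟨r - 1, by omega⟩
    have hm2 : m = 2 * (N + 1) := by omega
    have hNμ : ((N + 1 : ℕ) : ℤ) = 5 * μ := by rw [← hN, hμ]; push_cast; ring
    have hμ0 : 0 < μ := by omega
    have hv : p x (m + 1) = x ^ (10 * (μ : ℤ) ^ 2 + μ) + x ^ (10 * (μ : ℤ) ^ 2 - μ) := by
      rw [hm2, ← (schur h0 (N + 1)).1]
      unfold DE
      have hne : (μ : ℤ) ∉ ({-(μ : ℤ)} : Finset ℤ) := by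
        rw [Finset.mem_singleton]; omega
      rw [tsum_eq_sum (s := {(μ : ℤ), -(μ : ℤ)})]
      · rw [Finset.sum_insert hne, Finset.sum_singleton]
        unfold tE
        rw [← hm2, hNμ]
        rw [B_m hm hx (t := 5 * (μ : ℤ) - 5 * μ - 3) (by omega) (by omega),
          B_m hm hx (t := 5 * (μ : ℤ) - 5 * -(μ : ℤ) - 3) (by omega) (by omega)]
        have c1 : 5 * (μ : ℤ) - 5 * μ = 0 := by ring
        have c2 : 5 * (μ : ℤ) - 5 * -(μ : ℤ) = m := by rw [hm2]; push_cast at hNμ ⊢; linarith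
        rw [c1, c2, B_self_zero, B_self]
        have c3 : 10 * (-(μ : ℤ)) ^ 2 + -(μ : ℤ) = 10 * (μ : ℤ) ^ 2 - μ := by ring
        rw [c3]; ring
      · intro i hi
        have hi1 : i ≠ μ := fun h => hi (by rw [h]; exact Finset.mem_insert_self _ _)
        have hi2 : i ≠ -μ := fun h => hi (by
          rw [h]; exact Finset.mem_insert_of_mem (Finset.mem_singleton_self _))
        unfold tE
        rw [← hm2, hNμ]
        rw [B_m hm hx (t := 5 * (μ : ℤ) - 5 * i) (by omega) (by omega),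
          B_m hm hx (t := 5 * (μ : ℤ) - 5 * i - 3) (by omega) (by omega)]
        ring
    have hm10 : m = 10 * μ := by omega
    set η := x ^ μ with hη
    have h5η : η ^ 5 = -1 := by
      have h10 : (η ^ 5) ^ 2 = 1 := by
        rw [hη, ← pow_mul, ← pow_mul]
        rw [show μ * (5 * 2) = m by omega]
        exact hx.pow_eq_one
      rcases mul_eq_zero.mp (show (η ^ 5 - 1) * (η ^ 5 + 1) = 0 by linear_combination h10) with h | h
      · exfalso
        have h' : x ^ (μ * 5) = 1 := by rw [pow_mul, ← hη]; linear_combination h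
        exact hx.pow_ne_one_of_pos_of_lt (by omega) (by omega) h'
      · linear_combination h
    have hη0 : η ≠ 0 := pow_ne_zero _ h0
    have hη1 : η + 1 ≠ 0 := by
      intro h
      have h2 : η ^ 2 = 1 := by
        have : η = -1 := by linear_combination h
        rw [this]; norm_num
      have h' : x ^ (μ * 2) = 1 := by rw [pow_mul, ← hη]; exact h2
      exact hx.pow_ne_one_of_pos_of_lt (by omega) (by omega) h'
    have hcyc : η ^ 4 - η ^ 3 + η ^ 2 - η + 1 = 0 := by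
      have : (η + 1) * (η ^ 4 - η ^ 3 + η ^ 2 - η + 1) = 0 := by linear_combination h5η
      exact (mul_eq_zero.mp this).resolve_left hη1
    have e1 : x ^ (10 * (μ : ℤ) ^ 2 + μ) = η := by
      have : 10 * (μ : ℤ) ^ 2 + μ = (m : ℤ) * μ + μ := by rw [hm10]; push_cast; ring
      rw [this, zpow_add₀ h0, zpow_mul, hxm, one_zpow, one_mul,
        zpow_natCast]
    have e2 : x ^ (10 * (μ : ℤ) ^ 2 - μ) = η⁻¹ := by
      have : 10 * (μ : ℤ) ^ 2 - μ = (m : ℤ) * μ + -(μ : ℤ) := by rw [hm10]; push_cast; ring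
      rw [this, zpow_add₀ h0, zpow_mul, hxm, one_zpow, one_mul,
        zpow_neg, zpow_natCast]
    rw [hv, e1, e2]
    field_simp
    linear_combination hcyc
  · obtain ⟨N, hN⟩ := ho
    obtain ⟨ν, hν⟩ : ∃ ν, N = 5 * ν + 2 := ⟨N / 5, by omega⟩
    have hm2 : m = 5 * (2 * ν + 1) := by omega
    have hNν : (N : ℤ) = 5 * ν + 2 := by rw [hν]; push_cast; ring
    have hv : p x (m + 1) = -(x ^ (10 * (ν : ℤ) ^ 2 + 11 * ν + 3) +
        x ^ (10 * (ν : ℤ) ^ 2 + 9 * ν + 2)) := by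
      have c0 : m + 1 = 2 * N + 2 := by omega
      rw [c0, ← (schur h0 N).2]
      unfold DO
      have hne : (ν : ℤ) ∉ ({-(ν : ℤ) - 1} : Finset ℤ) := by
        rw [Finset.mem_singleton]; omega
      rw [tsum_eq_sum (s := {(ν : ℤ), -(ν : ℤ) - 1})]
      · rw [Finset.sum_insert hne, Finset.sum_singleton]
        unfold tO
        rw [← hN, hNν]
        rw [B_m hm hx (t := 5 * (ν : ℤ) + 2 - 5 * ν) (by omega) (by omega),
          B_m hm hx (t := 5 * (ν : ℤ) + 2 - 5 * (-(ν : ℤ) - 1)) (by omega) (by omega)]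
        have c1 : 5 * (ν : ℤ) + 2 - 5 * ν - 2 = 0 := by ring
        have c2 : 5 * (ν : ℤ) + 2 - 5 * (-(ν : ℤ) - 1) - 2 = m := by
          rw [hm2]; push_cast; ring
        rw [c1, c2, B_self_zero, B_self]
        have c3 : 10 * (-(ν : ℤ) - 1) ^ 2 + 11 * (-(ν : ℤ) - 1) + 3 =
          10 * (ν : ℤ) ^ 2 + 9 * ν + 2 := by ring
        rw [c3]; ring
      · intro i hi
        have hi1 : i ≠ ν := fun h => hi (by rw [h]; exact Finset.mem_insert_self _ _)
        have hi2 : i ≠ -(ν : ℤ) - 1 := fun h => hi (by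
          rw [h]; exact Finset.mem_insert_of_mem (Finset.mem_singleton_self _))
        unfold tO
        rw [← hN, hNν]
        rw [B_m hm hx (t := 5 * (ν : ℤ) + 2 - 5 * i) (by omega) (by omega),
          B_m hm hx (t := 5 * (ν : ℤ) + 2 - 5 * i - 2) (by omega) (by omega)]
        ring
    set ζ := x ^ (2 * ν + 1) with hζ
    have h5ζ : ζ ^ 5 = 1 := by
      rw [hζ, ← pow_mul, show (2 * ν + 1) * 5 = m by omega]
      exact hx.pow_eq_one
    have hζ1 : ζ - 1 ≠ 0 := by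
      intro h
      exact hx.pow_ne_one_of_pos_of_lt (l := 2 * ν + 1) (by omega) (by omega)
        (by rw [← hζ]; linear_combination h)
    have hcyc : ζ ^ 4 + ζ ^ 3 + ζ ^ 2 + ζ + 1 = 0 := by
      have : (ζ - 1) * (ζ ^ 4 + ζ ^ 3 + ζ ^ 2 + ζ + 1) = 0 := by linear_combination h5ζ
      exact (mul_eq_zero.mp this).resolve_left hζ1
    have e1 : x ^ (10 * (ν : ℤ) ^ 2 + 11 * ν + 3) = ζ ^ 3 := by
      have : 10 * (ν : ℤ) ^ 2 + 11 * ν + 3 = (m : ℤ) * ν + ((2 * ν + 1) * 3 : ℕ) := by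
        rw [hm2]; push_cast; ring
      rw [this, zpow_add₀ h0, zpow_mul, hxm, one_zpow, one_mul,
        zpow_natCast, pow_mul]
    have e2 : x ^ (10 * (ν : ℤ) ^ 2 + 9 * ν + 2) = ζ ^ 2 := by
      have : 10 * (ν : ℤ) ^ 2 + 9 * ν + 2 = (m : ℤ) * ν + ((2 * ν + 1) * 2 : ℕ) := by
        rw [hm2]; push_cast; ring
      rw [this, zpow_add₀ h0, zpow_mul, hxm, one_zpow, one_mul,
        zpow_natCast, pow_mul]
    rw [hv, e1, e2]
    linear_combination hcyc + (ζ + 2) * h5ζ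

/-! ### The second solution -/

theorem wronskian (a x : ℂ) (u v : ℕ → ℂ) (hu : ∀ n, u (n + 2) = u (n + 1) + a * x ^ n * u n)
    (hv : ∀ n, v (n + 2) = v (n + 1) + a * x ^ n * v n) (n : ℕ) :
    u (n + 1) * v n - u n * v (n + 1) =
      (∏ i ∈ Finset.range n, (-(a * x ^ i))) * (u 1 * v 0 - u 0 * v 1) := by
  induction n with
  | zero => simp
  | succ n ih =>
    rw [Finset.prod_range_succ, hu, hv]
    linear_combination (-(a * x ^ n)) * ih

theorem prod_root {x : ℂ} {m : ℕ} (hm : 0 < m) (hx : IsPrimitiveRoot x m) :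
    ∏ i ∈ Finset.range m, (-(1 * x ^ i)) = -1 := by
  have h1 : ∏ i ∈ Finset.range m, (-(1 * x ^ i)) = (-1) ^ m * x ^ (∑ i ∈ Finset.range m, i) := by
    rw [← Finset.prod_pow_eq_pow_sum, ← Finset.card_range m, ← Finset.prod_const,
      Finset.card_range, ← Finset.prod_mul_distrib]
    exact Finset.prod_congr rfl (fun i _ => by ring)
  have h2 := Finset.sum_range_id_mul_two m
  rw [h1]
  set S := ∑ i ∈ Finset.range m, i with hS
  rcases Nat.even_or_odd m with he | ho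
  · obtain ⟨r, hr⟩ := he
    have hSr : S = r * (2 * r - 1) := by
      have h3 : m * (m - 1) = 2 * (r * (2 * r - 1)) := by
        rw [show m - 1 = 2 * r - 1 by omega, show m = 2 * r by omega]; ring
      omega
    have hxr : x ^ r = -1 := by
      have h4 : x ^ r * x ^ r = 1 := by rw [← pow_add, ← hr]; exact hx.pow_eq_one
      rcases mul_eq_zero.mp (show (x ^ r - 1) * (x ^ r + 1) = 0 by linear_combination h4)
        with h | h
      · exact absurd (by linear_combination h : x ^ r = 1)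
          (hx.pow_ne_one_of_pos_of_lt (by omega) (by omega))
      · linear_combination h
    rw [hSr, pow_mul, hxr, ← pow_add]
    exact Odd.neg_one_pow ⟨2 * r - 1, by omega⟩
  · obtain ⟨r, hr⟩ := ho
    have hSr : S = m * r := by
      have h3 : m * (m - 1) = 2 * (m * r) := by
        rw [show m - 1 = 2 * r by omega]; ring
      omega
    rw [hSr, pow_mul, hx.pow_eq_one, one_pow, mul_one]
    exact Odd.neg_one_pow ⟨r, hr⟩

/-- auxiliary weights -/
noncomputable def cc (y : ℂ) : ℕ → ℂ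
  | 0 => 1
  | (n + 1) => -(y ^ n) * cc y n

theorem cc_succ (y : ℂ) (n : ℕ) : cc y (n + 1) = -(y ^ n) * cc y n := by rw [cc]

theorem s_root_aux {x : ℂ} {m : ℕ} (hm : 2 ≤ m) (hx : IsPrimitiveRoot x m) (hp : p x m = 0)
    (n : ℕ) : (∀ r, (n + 1) + r = m + 1 →
        cc x⁻¹ (n + 1) * p x r = cc x⁻¹ 2 * p x (m - 1) * s x⁻¹ (n + 1)) ∧
      (∀ r, (n + 2) + r = m + 1 →
        cc x⁻¹ (n + 2) * p x r = cc x⁻¹ 2 * p x (m - 1) * s x⁻¹ (n + 2)) := by
  have h0 : x ≠ 0 := hx.ne_zero (by omega)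
  induction n with
  | zero =>
    refine ⟨?_, ?_⟩
    · intro r hr
      rw [show r = m by omega, hp]
      simp [s]
    · intro r hr
      rw [show r = m - 1 by omega]
      simp [s]
  | succ n ih =>
    refine ⟨fun r hr => ih.2 r (by omega), ?_⟩
    intro r hr
    have h1 := ih.1 (r + 2) (by omega)
    have h2 := ih.2 (r + 1) (by omega)
    have h3 := p_rec x r
    have h4 := s_rec x⁻¹ (n + 1)
    have h5 := cc_succ x⁻¹ (n + 1)
    have h6 := cc_succ x⁻¹ (n + 2)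
    have e0 : n + 1 + 2 = n + 2 + 1 := rfl
    rw [e0]
    rw [e0] at h4
    have e1 : x⁻¹ ^ (n + 2) = x ^ r := by
      have h7 : x ^ r * x ^ (n + 2) = 1 := by
        rw [← pow_add, show r + (n + 2) = m by omega]; exact hx.pow_eq_one
      rw [inv_pow]
      field_simp
      linear_combination (-1 : ℂ) * h7
    rw [h6, h4, e1]
    have e2 : n + 1 + 1 = n + 2 := rfl
    rw [e2] at h4 h5
    rw [h5] at h2 ⊢
    rw [e2]
    linear_combination h2 + x⁻¹ ^ (n + 1) * h1 - (x⁻¹ ^ (n + 1) * cc x⁻¹ (n + 1)) * h3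

theorem s_root' {x : ℂ} {m : ℕ} (hm : 2 ≤ m) (h5 : 5 ∣ m) (hx : IsPrimitiveRoot x m) :
    s x⁻¹ (m + 1) = 0 := by
  have h0 : x ≠ 0 := hx.ne_zero (by omega)
  have hp := p_root (by omega) h5 hx
  have h1 := (s_root_aux hm hx hp m).1 0 (by omega)
  have h2 : p x 0 = 0 := by rw [p]
  rw [h2, mul_zero] at h1
  have h3 : cc x⁻¹ 2 ≠ 0 := by
    rw [cc_succ, cc_succ, cc]
    have : x⁻¹ ≠ 0 := inv_ne_zero h0
    simp [h0]
  have h4 : p x (m - 1) ≠ 0 := by
    intro h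
    have hW := wronskian 1 x (p x) (s x) (fun n => by rw [p_rec]; ring)
      (fun n => by rw [s_rec]; ring) (m - 1)
    rw [show m - 1 + 1 = m by omega, hp, h] at hW
    have h6 : (∏ i ∈ Finset.range (m - 1), (-(1 * x ^ i))) * (p x 1 * s x 0 - p x 0 * s x 1) ≠ 0 := by
      apply mul_ne_zero
      · exact Finset.prod_ne_zero_iff.mpr (fun i _ => by simp [h0])
      · simp [p, s]
    apply h6
    rw [← hW]; ring
  exact (mul_eq_zero.mp h1.symm).resolve_left (mul_ne_zero h3 h4)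

theorem s_root {x : ℂ} {m : ℕ} (hm : 2 ≤ m) (h5 : 5 ∣ m) (hx : IsPrimitiveRoot x m) :
    s x (m + 1) = 0 := by
  have := s_root' hm h5 hx.inv
  rwa [inv_inv] at this

/-! ### The general recurrence -/

noncomputable def pp (a x : ℂ) : ℕ → ℂ
  | 0 => 0
  | 1 => 1
  | (n + 2) => pp a x (n + 1) + a * x ^ n * pp a x n

noncomputable def qq (a x : ℂ) : ℕ → ℂ
  | 0 => 1
  | 1 => 1
  | (n + 2) => qq a x (n + 1) + a * x ^ n * qq a x n

theorem pp_rec (a x : ℂ) (n : ℕ) : pp a x (n + 2) = pp a x (n + 1) + a * x ^ n * pp a x n := by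
  rw [pp]
theorem qq_rec (a x : ℂ) (n : ℕ) : qq a x (n + 2) = qq a x (n + 1) + a * x ^ n * qq a x n := by
  rw [qq]

theorem P_eq (a x : ℂ) (n : ℕ) : P a x n = pp a x (n + 2) := by
  induction n using Nat.strong_induction_on with
  | _ n ih =>
    match n with
    | 0 => simp [P, pp]
    | 1 => simp [P, pp]
    | (n + 2) => rw [P, ih (n + 1) (by omega), ih n (by omega), pp_rec a x (n + 2)]

theorem Q_eq (a x : ℂ) (n : ℕ) : Q a x n = qq a x (n + 2) := by
  induction n using Nat.strong_induction_on with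
  | _ n ih =>
    match n with
    | 0 => simp [Q, qq]
    | 1 => simp [Q, qq]
    | (n + 2) => rw [Q, ih (n + 1) (by omega), ih n (by omega), qq_rec a x (n + 2)]

theorem lin (a x : ℂ) (u : ℕ → ℂ) (hu : ∀ n, u (n + 2) = u (n + 1) + a * x ^ n * u n)
    (ρ : ℕ) (hρ : a * x ^ ρ = 1) (n : ℕ) :
    u (ρ + n) = s x n * u ρ + p x n * u (ρ + 1) ∧
      u (ρ + (n + 1)) = s x (n + 1) * u ρ + p x (n + 1) * u (ρ + 1) := by
  induction n with
  | zero => simp [s, p]
  | succ n ih =>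
    refine ⟨ih.2, ?_⟩
    have h1 := hu (ρ + n)
    have h2 : a * x ^ (ρ + n) = x ^ n := by rw [pow_add]; linear_combination x ^ n * hρ
    rw [h2] at h1
    have e1 : ρ + (n + 1 + 1) = ρ + n + 2 := by ring
    have e2 : ρ + (n + 1) = ρ + n + 1 := by ring
    rw [e2] at ih
    rw [e1, h1, ih.1, ih.2, s_rec, p_rec]
    ring

theorem shiftA (a x : ℂ) {m : ℕ} (hm : 2 ≤ m) (hxm : x ^ m = 1) (u : ℕ → ℂ)
    (hu : ∀ n, u (n + 2) = u (n + 1) + a * x ^ n * u n) (n : ℕ) :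
    u (n + m) = a * x ^ (m - 1) * u (m - 1) * pp a x n + u m * qq a x n ∧
      u (n + 1 + m) = a * x ^ (m - 1) * u (m - 1) * pp a x (n + 1) + u m * qq a x (n + 1) := by
  induction n with
  | zero =>
    refine ⟨by simp [pp, qq], ?_⟩
    have h1 := hu (m - 1)
    rw [show m - 1 + 2 = 0 + 1 + m by omega, show m - 1 + 1 = m by omega] at h1
    rw [h1]
    simp [pp, qq]
    ring
  | succ n ih =>
    refine ⟨ih.2, ?_⟩
    have h1 := hu (n + m)
    rw [show n + 1 + 1 + m = n + m + 2 by omega, h1, show n + m + 1 = n + 1 + m by omega, ih.1, ih.2,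
      pp_rec, qq_rec, pow_add, hxm]
    ring

theorem golden_cases {μ : ℂ} (h : μ ^ 2 = μ + 1) :
    μ = (1 + (Real.sqrt 5 : ℂ)) / 2 ∨ μ = (1 - (Real.sqrt 5 : ℂ)) / 2 := by
  have h5 : (Real.sqrt 5 : ℂ) ^ 2 = 5 := by
    rw [← Complex.ofReal_pow, Real.sq_sqrt (by norm_num)]; norm_num
  have h1 : (μ - (1 + (Real.sqrt 5 : ℂ)) / 2) * (μ - (1 - (Real.sqrt 5 : ℂ)) / 2) = 0 := by
    linear_combination h - h5 / 4
  rcases mul_eq_zero.mp h1 with h2 | h2
  · left; linear_combination h2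
  · right; linear_combination h2

theorem core {a x : ℂ} {m : ℕ} (hm : 3 ≤ m) (h5 : 5 ∣ m) (hx : IsPrimitiveRoot x m)
    (ha : a ≠ 0) (t : ℕ) (ht : a * x ^ (t + 1) = 1 ∨ a * x ^ (t + 2) = 1) :
    ∃ μ : ℂ, (μ = (1 + (Real.sqrt 5 : ℂ)) / 2 ∨ μ = (1 - (Real.sqrt 5 : ℂ)) / 2) ∧
      Module.End.HasEigenvector (Matrix.toLin' (A a x m)) μ ![P a x t, Q a x t] := by
  have h0 : x ≠ 0 := hx.ne_zero (by omega)
  have hp := p_root (by omega) h5 hx
  have hs := s_root (by omega) h5 hx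
  have hg := golden (by omega) h5 hx
  have hW := wronskian 1 x (p x) (s x) (fun n => by rw [p_rec]; ring)
      (fun n => by rw [s_rec]; ring) m
  rw [prod_root (by omega) hx, hp] at hW
  have hW' : p x (m + 1) * s x m = -1 := by
    have e : p x 1 * s x 0 - p x 0 * s x 1 = 1 := by simp [p, s]
    rw [e] at hW
    linear_combination hW
  have hg2 : (s x m) ^ 2 = s x m + 1 := by
    have hne : p x (m + 1) ≠ 0 := by
      intro h; rw [h, zero_mul] at hW'; norm_num at hW'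
    have : (p x (m + 1)) ^ 2 * ((s x m) ^ 2 - s x m - 1) = 0 := by
      linear_combination (p x (m + 1) * s x m - 1 - p x (m + 1)) * hW' - hg
    have := (mul_eq_zero.mp this).resolve_left (pow_ne_zero _ hne)
    linear_combination this
  -- the vector is nonzero
  have hnz : ∀ n : ℕ, ¬ (pp a x n = 0 ∧ qq a x n = 0) := by
    rintro n ⟨h1, h2⟩
    have hW2 := wronskian a x (pp a x) (qq a x) (pp_rec a x) (qq_rec a x) n
    rw [h1, h2] at hW2
    have : (∏ i ∈ Finset.range n, (-(a * x ^ i))) *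
        (pp a x 1 * qq a x 0 - pp a x 0 * qq a x 1) ≠ 0 := by
      apply mul_ne_zero
      · exact Finset.prod_ne_zero_iff.mpr (fun i _ => by simp [h0, ha])
      · simp [pp, qq]
    apply this
    rw [← hW2]; ring
  have hvec : (![P a x t, Q a x t] : Fin 2 → ℂ) ≠ 0 := by
    intro h
    apply hnz (t + 2)
    rw [← P_eq, ← Q_eq]
    exact ⟨by simpa using congrFun h 0, by simpa using congrFun h 1⟩
  -- action of `A`
  have hA : ∀ μ : ℂ, pp a x (t + 2 + m) = μ * pp a x (t + 2) →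
      qq a x (t + 2 + m) = μ * qq a x (t + 2) →
      Module.End.HasEigenvector (Matrix.toLin' (A a x m)) μ ![P a x t, Q a x t] := by
    intro μ h1 h2
    rw [Module.End.hasEigenvector_iff, Module.End.mem_eigenspace_iff]
    refine ⟨?_, hvec⟩
    have e1 := (shiftA a x (by omega : 2 ≤ m) hx.pow_eq_one (pp a x) (pp_rec a x) (t + 2)).1
    have e2 := (shiftA a x (by omega : 2 ≤ m) hx.pow_eq_one (qq a x) (qq_rec a x) (t + 2)).1
    rw [h1] at e1
    rw [h2] at e2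
    have c1 : m - 3 + 2 = m - 1 := by omega
    have c2 : m - 2 + 2 = m := by omega
    rw [Matrix.toLin'_apply]
    unfold A
    rw [P_eq a x t, Q_eq a x t, P_eq a x (m - 3), P_eq a x (m - 2), Q_eq a x (m - 3),
      Q_eq a x (m - 2), c1, c2]
    ext i
    fin_cases i
    · simp [Matrix.mulVec, dotProduct, Fin.sum_univ_two]
      linear_combination -e1
    · simp [Matrix.mulVec, dotProduct, Fin.sum_univ_two]
      linear_combination -e2
  rcases ht with ht | ht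
  · refine ⟨p x (m + 1), golden_cases hg, hA _ ?_ ?_⟩
    · have h1 := (lin a x (pp a x) (pp_rec a x) (t + 1) ht m).2
      rw [hs, zero_mul, zero_add, show t + 1 + (m + 1) = t + 2 + m by omega] at h1
      exact h1
    · have h1 := (lin a x (qq a x) (qq_rec a x) (t + 1) ht m).2
      rw [hs, zero_mul, zero_add, show t + 1 + (m + 1) = t + 2 + m by omega] at h1
      exact h1
  · refine ⟨s x m, golden_cases hg2, hA _ ?_ ?_⟩
    · have h1 := (lin a x (pp a x) (pp_rec a x) (t + 2) ht m).1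
      rw [hp, zero_mul, add_zero] at h1
      exact h1
    · have h1 := (lin a x (qq a x) (qq_rec a x) (t + 2) ht m).1
      rw [hp, zero_mul, add_zero] at h1
      exact h1

/-- **Q1 holds.** -/
theorem result (k m : ℕ) (j l l' s₀ : ℤ) (hk : 1 ≤ k) (hm : 3 ≤ m) (hj : IsCoprime j (k : ℤ))
    (hl : IsCoprime l (m : ℤ)) (h5 : 5 ∣ m) (hkm : k ∣ m) (hl' : l * l' ≡ 1 [ZMOD m])
    (hs₀ : s₀ ≡ -((m / k : ℕ) : ℤ) * j * l' [ZMOD m]) (r : ℕ)
    (hr : (r : ℤ) ≡ s₀ - 1 [ZMOD m] ∨ (r : ℤ) ≡ s₀ - 2 [ZMOD m]) :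
    ∃ μ : ℂ, (μ = (1 + (Real.sqrt 5 : ℂ)) / 2 ∨ μ = (1 - (Real.sqrt 5 : ℂ)) / 2) ∧
      Module.End.HasEigenvector
        (Matrix.toLin' (A (Complex.exp (2 * Real.pi * Complex.I * j / k))
          (Complex.exp (2 * Real.pi * Complex.I * l / m)) m)) μ
        ![P (Complex.exp (2 * Real.pi * Complex.I * j / k))
            (Complex.exp (2 * Real.pi * Complex.I * l / m)) r,
          Q (Complex.exp (2 * Real.pi * Complex.I * j / k))
            (Complex.exp (2 * Real.pi * Complex.I * l / m)) r] := by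
  have hx : IsPrimitiveRoot (Complex.exp (2 * Real.pi * Complex.I * l / m)) m := by
    have := Complex.isPrimitiveRoot_exp_of_isCoprime l m (by omega) hl
    rwa [mul_div_assoc]
  obtain ⟨d, hd⟩ := hkm
  have hmk : m / k = d := by rw [hd]; exact Nat.mul_div_cancel_left d (by omega)
  rw [hmk] at hs₀
  have hm0 : (m : ℂ) ≠ 0 := by exact_mod_cast (by omega : m ≠ 0)
  have hk0 : (k : ℂ) ≠ 0 := by exact_mod_cast (by omega : k ≠ 0)
  have hd0 : (d : ℂ) ≠ 0 := by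
    have : d ≠ 0 := by rintro rfl; omega
    exact_mod_cast this
  have key : ∀ n : ℕ, (n : ℤ) ≡ s₀ [ZMOD m] →
      Complex.exp (2 * Real.pi * Complex.I * j / k) *
        Complex.exp (2 * Real.pi * Complex.I * l / m) ^ n = 1 := by
    intro n hn
    have h1 : (d : ℤ) * j + l * n ≡ 0 [ZMOD m] := by
      have h2 : l * n ≡ l * (-(d : ℤ) * j * l') [ZMOD m] := (hn.trans hs₀).mul_left _
      have h3 : l * (-(d : ℤ) * j * l') = -(d : ℤ) * j * (l * l') := by ring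
      rw [h3] at h2
      have h4 : -(d : ℤ) * j * (l * l') ≡ -(d : ℤ) * j * 1 [ZMOD m] := hl'.mul_left _
      have h5 := (h2.trans h4).add_left ((d : ℤ) * j)
      have h6 : (d : ℤ) * j + -(d : ℤ) * j * 1 = 0 := by ring
      rwa [h6] at h5
    obtain ⟨c, hc⟩ := (Int.modEq_zero_iff_dvd).mp h1
    rw [← Complex.exp_nat_mul, ← Complex.exp_add, Complex.exp_eq_one_iff]
    refine ⟨c, ?_⟩
    have hc' : (d : ℂ) * j + l * n = m * c := by exact_mod_cast hc
    have hmd : (m : ℂ) = k * d := by exact_mod_cast hd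
    have e1 : (2 * Real.pi * Complex.I * j / k : ℂ) = 2 * Real.pi * Complex.I * (d * j) / m := by
      rw [hmd]; field_simp
    have e2 : (n : ℂ) * (2 * Real.pi * Complex.I * l / m) =
        2 * Real.pi * Complex.I * (l * n) / m := by ring
    rw [e1, e2, ← add_div, ← mul_add, hc']
    field_simp
  refine core hm h5 hx (Complex.exp_ne_zero _) r ?_
  rcases hr with hr | hr
  · left
    apply key
    push_cast
    have := hr.add_right 1
    simpa using this
  · right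
    apply key
    push_cast
    have := hr.add_right 2
    simpa using this

end Pool.Agent.Results.MP_b3b2bb_nt.EigenvectorApproximants
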